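import Pool.Agent.Helper92.LV.Stmts

/-!
# The Szpiro ratio (MP_9a3c31_nt): module statements

`h(P) ≥ c (1 + HK) / σ ^ 5`, `σ = (1 + LD) / (1 + LR)`. The proofs are in the docstrings.
`F k = ∑ v ∈ V, w v * B2 (k * t v)`, `W = ∑ v ∈ V, w v`, `p s = 1 - s / S`.
-/

set_option autoImplicit false

open Filter Topology NumberField

namespace Pool.Agent.Helper54.SZ

open Pool.Agent.Helper42.LS Pool.Agent.Helper42.LK Pool.Agent.Helper54.LS Pool.Agent.Helper92.LV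

/-- (FEJ) Positivity. From `0 ≤ ∑ a < S, ∑ b < S, B2 (a x - b x)`
(`Pool.Agent.Helper54.LM.ST_LBC` and its consequence `LBC_pos`, both in
`Pool/Agent/Helper90/LM/LBC.lean`): the double sum is
`S * (1 / 6) + 2 * ∑ s ∈ Icc 1 (S - 1), (S - s) * B2 (s * x)`, as `B2` is even. -/
def ST_FEJ : Prop := ∀ (S : ℕ) (x : ℝ), 1 ≤ S →
  -(1 / 12 : ℝ) ≤ ∑ s ∈ Finset.Icc 1 S, (1 - (s : ℝ) / S) * B2 (s * x)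

/-- (KER3) `ST_KER` with the sign information: from `ST_BT` as in
`Pool/Agent/Helper30/LV/KER.lean` (`β = bt τ b`, `J = ⌈1 / b ^ 2⌉`); the new item is the
contrapositive of the third item of `ST_BT` (`τ ≤ 1 / 9 ≤ 1`). Copy that file. -/
def ST_KER3 : Prop := ∃ b₀ c₁ C₁ : ℝ, 0 < b₀ ∧ b₀ ≤ 1 / 6 ∧ 0 < c₁ ∧ 0 < C₁ ∧
  ∀ b : ℝ, 0 < b → b ≤ b₀ → ∃ (J : ℕ) (β : ℕ → ℝ), 1 ≤ J ∧ DC J β ∧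
    1 + Real.log J ≤ C₁ * (1 + Real.log (1 / b)) ∧
    ∑ j ∈ Finset.Icc 1 J, |β j| ≤ C₁ * b ^ 3 ∧
    ∑ j ∈ Finset.Icc 1 J, β j * (j : ℝ) ^ 2 ≤ C₁ * b ∧
    (∀ j ∈ Finset.Icc 1 J, β j < 0 → (b * j) ^ 2 ≤ 1) ∧
    ∀ (n : ℕ) (α : ℝ), 1 ≤ n → 3 * b * n ≤ 1 → (∃ a : ℤ, (n : ℝ) * α = a) →
      c₁ * b ^ 4 ≤ ∑ j ∈ Finset.Icc 1 J, β j * B2 (j * α)

/-- (MSM) The signed master inequality along the multiples of `s`. Apply `MSgn` with `s * J` and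
the weights `k ↦ if s ∣ k then β (k / s) else 0`; `DC`: for `m ≥ 1` the sum over `m ∣ k` is
`∑ j ∈ Icc 1 J, m ∣ s * j` of `β j`, and `m ∣ s * j ↔ m / gcd m s ∣ j`. The sums over
`k ∈ Icc 1 (s * J)` with `s ∣ k` are sums over `k = s * j`, `j ∈ Icc 1 J` (`ker_filter` in
`Pool/Agent/Helper30/LV/KER.lean`). -/
def ST_MSM : Prop := ∀ (C₀ e : ℝ) (V : Finset ℕ) (w t : ℕ → ℝ), MSgn C₀ e V w t →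
  ∀ (J : ℕ) (β : ℕ → ℝ), 1 ≤ J → DC J β → ∀ s : ℕ, 1 ≤ s →
  ∑ j ∈ Finset.Icc 1 J, β j * (∑ v ∈ V, w v * B2 (((s : ℝ) * j) * t v)) ≤
    144 * e * (s : ℝ) ^ 2 * (∑ j ∈ Finset.Icc 1 J, β j * (j : ℝ) ^ 2) +
      C₀ * (1 + Real.log (s * J)) ^ 2 * ∑ j ∈ Finset.Icc 1 J, |β j|

/-- (CORE) (FEJ, KER3, MSM). Let `Q x = ∑ s ∈ Icc 1 S, p s * B2 (s * x) ≥ -1/12`, `W_G` the sum over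
`G`, `J, β` from KER3, `T = ∑ s, p s * ∑ j, β j * F (s j) = ∑ v, w v * ∑ j, β j * Q (j * t v)`.
* MSM: `T ≤ 144 e S ^ 3 C₁ b + C₀ S (1 + log (S J)) ^ 2 C₁ b ^ 3`
  (`0 ≤ p s ≤ 1`, `∑ p s * s ^ 2 ≤ S ^ 3`, `∑ p s ≤ S`).
* `v ∈ G`: `∑ j, β j * Q (j * t v) = ∑ s, p s * ∑ j, β j * B2 (j * (s * t v)) ≥ c₁ b ^ 4 (S - 1) / 2`,
  as `n v * (s * t v)` is an integer.
* `v ∉ G`: split `β = β⁺ - β⁻`: `≥ -(1 / 12) ∑ β⁺ - ∑ β⁻ j * Q (j * t v)`, and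
  `∑ v ∉ G, w v * Q (j * t v) = ∑ s, p s * F (s j) - ∑ v ∈ G, w v * Q (j * t v)
  ≤ 144 e S ^ 3 j ^ 2 + C₀ S + W_G / 12`. By the sign information `∑ β⁻ j * j ^ 2 ≤ C₁ b`.
Hence `c₁ b ^ 4 (S - 1) / 2 * W_G ≤ C₁ b ^ 3 W / 12 + 288 C₁ e S ^ 3 b + 2 C₀ C₁ (1 + log (S J)) ^ 2 S b ^ 3`;
divide by `b`. -/
def ST_CORE : Prop := ∀ C₀ : ℝ, 0 ≤ C₀ → ∃ b₀ c C : ℝ, 0 < b₀ ∧ b₀ ≤ 1 / 6 ∧ 0 < c ∧ 0 < C ∧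
  ∀ (e : ℝ) (V G : Finset ℕ) (w t : ℕ → ℝ) (n : ℕ → ℕ), 0 ≤ e → G ⊆ V →
    (∀ v ∈ V, 0 ≤ w v) → (∀ v ∈ G, 1 ≤ n v ∧ ∃ a : ℤ, (n v : ℝ) * t v = a) →
    MSgn C₀ e V w t →
    (∀ k : ℕ, 1 ≤ k → ∑ v ∈ V, w v * B2 (k * t v) - C₀ ≤ 144 * (k : ℝ) ^ 2 * e) →
    ∀ b : ℝ, 0 < b → b ≤ b₀ → (∀ v ∈ G, 3 * b * n v ≤ 1) → ∀ S : ℕ, 2 ≤ S →
    c * b ^ 3 * S * ∑ v ∈ G, w v ≤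
      C * (b ^ 2 * ∑ v ∈ V, w v + e * (S : ℝ) ^ 3 +
        S * b ^ 2 * (1 + Real.log S + Real.log (1 / b)) ^ 2)

/-- (GRD) (CORE) The graded bound. `G = Vf.filter (n v ≤ X)`, `b = b₀ / X`, `μ = W_G / W ≤ 1`
(`W_G = 0` is trivial), `S = ⌈A / (b μ)⌉₊`, `A = 1 + 2 C / c`: `2 ≤ S ≤ 2 A / (b μ)` and
`2 C b ^ 2 W ≤ c b ^ 3 S W_G`, so `(c / 2) b ^ 3 W_G ≤ C (e S ^ 2 + b ^ 2 L ^ 2)`,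
`L = 1 + log S + log (1 / b) ≤ C' (1 + log (1 / z))`, `z = b μ ≤ 1 / 6`.
If `C b ^ 2 L ^ 2 ≤ (c / 4) b ^ 3 W_G`: `c / 4 * b ^ 3 μ W ≤ C e 4 A ^ 2 / (b μ) ^ 2`, so
`e ≥ c' b ^ 5 μ ^ 3 W`. Otherwise `z W ≤ C'' (1 + log (1 / z)) ^ 2`; with `z = y ^ 4`,
`(1 + log (1 / z)) ^ 2 ≤ 64 / y`, so `y ^ 5 W ≤ D`, and
`b ^ 5 μ ^ 3 W ≤ y ^ 12 W ≤ y ^ 10 W ^ 2 / √W ≤ D ^ 2 / √W ≤ D ^ 2 / c₀ * e` (`W ≥ 1`). -/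
def ST_GRD : Prop := ∀ C₀ c₀ : ℝ, 0 ≤ C₀ → 0 < c₀ → ∃ c : ℝ, 0 < c ∧
  ∀ (e : ℝ) (V Vf : Finset ℕ) (w t : ℕ → ℝ) (n : ℕ → ℕ), Vf ⊆ V →
    (∀ v ∈ V, 0 ≤ w v) → (∀ v ∈ Vf, 1 ≤ n v ∧ ∃ a : ℤ, (n v : ℝ) * t v = a) →
    MSgn C₀ e V w t →
    (∀ k : ℕ, 1 ≤ k → ∑ v ∈ V, w v * B2 (k * t v) - C₀ ≤ 144 * (k : ℝ) ^ 2 * e) →
    1 ≤ ∑ v ∈ V, w v → c₀ / √(∑ v ∈ V, w v) ≤ e → ∀ X : ℝ, 1 ≤ X →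
    c * (∑ v ∈ Vf.filter (fun v => (n v : ℝ) ≤ X), w v) ^ 3 ≤ e * (∑ v ∈ V, w v) ^ 2 * X ^ 5

/-- (SZP) From all scales `X` to the ratio. `N X` = the sum of `w v` over `n v ≤ X`,
`R = ∑ v ∈ Vf, w v / n v ≤ W` (`R = 0` is trivial), `Y = ⌈2 W / R⌉₊`, `2 ≤ Y ≤ 3 W / R`. Since
`1 / n ≤ ∑ X ∈ Icc n Y, 1 / (X (X + 1)) + 1 / (Y + 1)` (also if `n > Y`),
`R ≤ ∑ X ∈ Icc 1 Y, N X / X ^ 2 + W / Y`, and `W / Y ≤ R / 2`. If `e W ^ 4 < c' R ^ 5`, then for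
`1 ≤ X ≤ Y`: `N X ^ 3 ≤ (c' / c) R ^ 5 X ^ 5 / W ^ 2 ≤ (κ R √R X √X / √W) ^ 3`,
`κ ^ 3 = (c' / c) √3`, as `√X ≤ √(3 W / R)`; `∑ X ∈ Icc 1 Y, 1 / √X ≤ 2 √Y`, so
`R / 2 ≤ κ R √R / √W * 2 √(3 W / R) = 2 √3 κ R`, a contradiction for `κ ≤ 1 / 8`
(`c' = c / 1000`). -/
def ST_SZP : Prop := ∀ c : ℝ, 0 < c → ∃ c' : ℝ, 0 < c' ∧
  ∀ (e W : ℝ) (Vf : Finset ℕ) (w : ℕ → ℝ) (n : ℕ → ℕ), 0 ≤ e → 0 < W →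
  (∀ v ∈ Vf, 0 ≤ w v) → (∀ v ∈ Vf, 1 ≤ n v) → ∑ v ∈ Vf, w v ≤ W →
  (∀ X : ℝ, 1 ≤ X →
    c * (∑ v ∈ Vf.filter (fun v => (n v : ℝ) ≤ X), w v) ^ 3 ≤ e * W ^ 2 * X ^ 5) →
  c' * (∑ v ∈ Vf, w v / n v) ^ 5 ≤ e * W ^ 4

/-- (SZF) (GRD, SZP; `ST_KMT2`, `ST_CK`, `ST_KSM`, `ST_LV`, `ST_KMT` for `0 ≤ LR ≤ LD`).
`V, Vf, w, t, n` from `ST_KMT2`, `C₀` its constant, `W = ∑ V`, `Wf = ∑ Vf`. `HK ≤ H₀`: `ST_KSM` and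
`(1 + LR) / (1 + LD) ≤ 1`. Otherwise `HK / 2 - C₀ ≤ W ≤ HK + C₀`, `W ≥ HK / 4`. If
`W ≤ 2 ∑ (V \ Vf)`: some `v₀ ∈ V \ Vf` has `w v₀ ≥ W / (2 (C₀ + 1))`, `kfin_CK` gives `e ≥ c W`.
Otherwise `LD ≥ Wf - C₀ ≥ W / 2 - C₀ ≥ W / 4`. If `LR ≤ 2 C₀ + 1`: `ST_LV` gives
`e ≥ c (1 + HK) ^ (-1/2) ≥ c (1 + HK) / (1 + LD) ^ 2` and so on. If `LR > 2 C₀ + 1`:
`R = ∑ v ∈ Vf, w v / n v ≥ LR - C₀ ≥ (1 + LR) / 2`, and GRD, SZP give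
`e ≥ c' R ^ 5 / W ^ 4 ≥ c'' (1 + LR) ^ 5 (1 + HK) / (1 + LD) ^ 5`. -/
def ST_SZF : Prop := ∀ (K : Type) [Field K] [NumberField K], ∃ c : ℝ, 0 < c ∧
  ∀ A B : K, dsc A B ≠ 0 → ∀ (x y : ℕ → K) (e : ℝ), GSeq (0 : K) A B x y → IsCanK x e →
  c * (1 + HK A B) * ((1 + LR A B) / (1 + LD A B)) ^ 5 ≤ e

end Pool.Agent.Helper54.SZ
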